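import Mathlib
import Pool.Agent.Lib.MP_ff3579_an.X.Final
import Pool.Agent.Lib.MP_ff3579_an.Y.Fin

/-!
The sharp constant `C(n,2)` of the `L_2` Markov inequality on `[-1,1]`: for every `n ≥ 1` its square
is an algebraic number of degree exactly `m = ⌊(n+1)/2⌋`, and for every `n ≥ 9` the Galois group of
its minimal polynomial is the symmetric or the alternating group of the `m` roots.
-/

set_option autoImplicit false

open Polynomial

namespace Pool.Agent.Results.MP_ff3579_an.MinimalPolynomial

/-- The `L_p` (quasi-)norm of a real polynomial on `[-1,1]`. -/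
noncomputable def lpNorm (p : ℝ) (P : ℝ[X]) : ℝ :=
  (∫ x in (-1 : ℝ)..1, |P.eval x| ^ p) ^ (1 / p)

/-- The sharp constant `C(n,p)`: the supremum of `‖P'‖_p / ‖P‖_p` over nonzero real polynomials
of degree at most `n`. -/
noncomputable def sharpConst (n : ℕ) (p : ℝ) : ℝ :=
  sSup {c : ℝ | ∃ P : ℝ[X], P ≠ 0 ∧ P.natDegree ≤ n ∧ c = lpNorm p (derivative P) / lpNorm p P}

/-- For every `n ≥ 1` the minimal polynomial of `C(n,2)^2` over the rational numbers has degree
exactly `m = ⌊(n+1)/2⌋`, and for every `n ≥ 9` its Galois group has at least `m!/2` elements, that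
is, it is the symmetric or the alternating group of the `m` roots. -/
theorem result (n : ℕ) (hn : 1 ≤ n) :
    (minpoly ℚ (sharpConst n 2 ^ 2)).natDegree = (n + 1) / 2 ∧
      (9 ≤ n → ((n + 1) / 2).factorial ≤ 2 * Nat.card (minpoly ℚ (sharpConst n 2 ^ 2)).Gal) :=
  ⟨(Lib.MP_ff3579_an.X.final n hn).1, fun h => Lib.MP_ff3579_an.Y.card_gal n h⟩

end Pool.Agent.Results.MP_ff3579_an.MinimalPolynomial
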