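import Mathlib
import Pool.Agent.Lib.MP_ff3579_an.Y.Fin

/-!
The sharp constant `C(n,2)` of the `L_2` Markov inequality on `[-1,1]`: for `n ≥ 9` the constant
cannot be obtained from rational numbers by roots of all orders and by solving equations of degree
smaller than `⌊(n+1)/2⌋`, the degree of the classical equation for its square.
-/

set_option autoImplicit false

open Polynomial

namespace Pool.Agent.Results.MP_ff3579_an.NoLowerEquation

/-- The `L_p` (quasi-)norm of a real polynomial on `[-1,1]`. -/
noncomputable def lpNorm (p : ℝ) (P : ℝ[X]) : ℝ :=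
  (∫ x in (-1 : ℝ)..1, |P.eval x| ^ p) ^ (1 / p)

/-- The sharp constant `C(n,p)`: the supremum of `‖P'‖_p / ‖P‖_p` over nonzero real polynomials
of degree at most `n`. -/
noncomputable def sharpConst (n : ℕ) (p : ℝ) : ℝ :=
  sSup {c : ℝ | ∃ P : ℝ[X], P ≠ 0 ∧ P.natDegree ≤ n ∧ c = lpNorm p (derivative P) / lpNorm p P}

/-- The smallest subfield of the complex numbers that is closed under taking roots of all orders
and under taking roots of nonzero polynomials of degree at most `k` with coefficients in it. -/
noncomputable def equationClosure (k : ℕ) : IntermediateField ℚ ℂ :=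
  sInf {K : IntermediateField ℚ ℂ |
    (∀ (x : ℂ) (j : ℕ), j ≠ 0 → x ^ j ∈ K → x ∈ K) ∧
    (∀ q : ℂ[X], q ≠ 0 → q.natDegree ≤ k → (∀ i, q.coeff i ∈ K) →
      ∀ x : ℂ, q.eval x = 0 → x ∈ K)}

/-- For every `n ≥ 1` and every `k`, the number `C(n,2)` lies in the smallest subfield of the
complex numbers closed under roots of all orders and under roots of polynomials of degree at most
`k` if and only if `n ≤ 8` or `⌊(n+1)/2⌋ ≤ k`. -/
theorem result (n k : ℕ) (hn : 1 ≤ n) :
    ((sharpConst n 2 : ℝ) : ℂ) ∈ equationClosure k ↔ n ≤ 8 ∨ (n + 1) / 2 ≤ k :=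
  Lib.MP_ff3579_an.Y.final n k hn

end Pool.Agent.Results.MP_ff3579_an.NoLowerEquation
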